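import Mathlib

/-!
# The Abel-Jacobi map of open varieties: definitions

`𝓗` is the category of rational mixed Hodge structures (any abelian `ℚ`-linear category with the listed properties would do), `I`
is the object `ℚ(0)`; so `Ext¹(I, H^(2k-1)(V)(k))` is the group `J^k(V) ⊗ ℚ` of MP_537ea0_ag.
-/

set_option autoImplicit false

open CategoryTheory CategoryTheory.Limits CategoryTheory.Abelian

universe w v u

namespace Pool.Agent.T6.H33.QP

variable {𝓗 : Type u} [Category.{v} 𝓗] [Abelian 𝓗] [Linear ℚ 𝓗] [HasExt.{w} 𝓗]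

/-- The map from `Ext¹(I, H)` to `Ext¹(I, H')` given by a morphism. -/
noncomputable def push {I H H' : 𝓗} (f : H ⟶ H') (α : Ext I H 1) : Ext I H' 1 := α.comp (Ext.mk₀ f) (add_zero 1)

/-- The data of a smooth variety `V` over `ℚ̄` and a number `k`: the Chow group `CH^k(V) ⊗ ℚ`, the Hodge structures
`even = H^(2k)(V)(k)` and `odd = H^(2k-1)(V)(k)`, the cycle class, which is a morphism from `I` to `H^(2k)(V)(k)`, and the
Abel-Jacobi map. The Abel-Jacobi map is defined for the homologically trivial classes; `AJ` is any linear extension of it to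
`CH^k(V) ⊗ ℚ`, only the values on homologically trivial classes are used. -/
structure Cycles (I : 𝓗) where
  CH : Type
  grp : AddCommGroup CH
  mod : Module ℚ CH
  even : 𝓗
  odd : 𝓗
  cl : CH →ₗ[ℚ] (I ⟶ even)
  AJ : CH →ₗ[ℚ] Ext I odd 1

attribute [instance] Cycles.grp Cycles.mod

namespace Cycles

variable {I : 𝓗} (V : Cycles I)

/-- The cycle class of `x`. -/
def cyc (x : V.CH) : I ⟶ V.even := V.cl x

/-- The image of `x` by the Abel-Jacobi map (if `x` is homologically trivial). -/
noncomputable def aj (x : V.CH) : Ext I V.odd 1 := V.AJ x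

/-- The Abel-Jacobi map is injective on the homologically trivial classes. -/
def Injective : Prop := ∀ x, V.cyc x = 0 → V.aj x = 0 → x = 0

end Cycles

section

variable {M N : Type} [AddCommGroup M] [Module ℚ M] [AddCommGroup N] [Module ℚ N]

/-- The value `f(x)` of a linear map. -/
def value (f : M →ₗ[ℚ] N) (x : M) : N := f x

end

/-- The data of a smooth projective variety `X`, an open subvariety `V`, and the disjoint union `D` of the components of the
resolution of the complement, which is a divisor; here `D` has the number `k - 1`: `D.odd = H^(2k-3)(D)(k-1)` and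
`D.even = H^(2k-2)(D)(k-1)`. `i` and `g` are the Gysin maps and `j` is the restriction of cycles. In the exact sequence
`H^(2k-1)(X)(k) → H^(2k-1)(V)(k) → S → H^(2k)(X)(k) → H^(2k)(V)(k)`, where `S` is the cohomology of `X` with support in the
complement of `V`, of degree `2k` and twisted by `k`, the object `A` is the image of the first map, `p ≫ ι`, and `B` is the
image of the second map, `π ≫ σ`; the last maps are `δ` and `ρ`. `γ` is the Gysin map from `H^(2k-2)(D)(k-1)` to `S`. -/
structure OpenPair {I : 𝓗} (V X D : Cycles I) where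
  i : D.CH →ₗ[ℚ] X.CH
  j : X.CH →ₗ[ℚ] V.CH
  g : D.odd ⟶ X.odd
  A : 𝓗
  B : 𝓗
  S : 𝓗
  p : X.odd ⟶ A
  ι : A ⟶ V.odd
  π : V.odd ⟶ B
  σ : B ⟶ S
  δ : S ⟶ X.even
  ρ : X.even ⟶ V.even
  γ : D.even ⟶ S

namespace OpenPair

variable {I : 𝓗} {V X D : Cycles I} (P : OpenPair V X D)

/-- The Gysin image of a cycle on `D`. -/
def gysin (y : D.CH) : X.CH := value P.i y

/-- The restriction of a cycle to `V`. -/
def restrict (x : X.CH) : V.CH := value P.j x

/-- The localisation sequence of the Chow groups. -/
structure IsLocalisation : Prop where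
  surj : ∀ v, ∃ x, P.restrict x = v
  exact : ∀ x, P.restrict x = 0 ↔ ∃ y, P.gysin y = x

/-- The localisation sequence of the cohomology groups. The exactness of `D.odd → X.odd → A` contains the statement that the image
of the cohomology with support in the complement of `V` in the pure Hodge structure `X.odd` is the image of `D.odd`. -/
structure IsExact : Prop where
  g_p : P.g ≫ P.p = 0
  exact_g : (ShortComplex.mk P.g P.p g_p).Exact
  epi_p : Epi P.p
  ι_π : P.ι ≫ P.π = 0
  short : (ShortComplex.mk P.ι P.π ι_π).ShortExact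
  σ_δ : P.σ ≫ P.δ = 0
  exact_σ : (ShortComplex.mk P.σ P.δ σ_δ).Exact
  mono_σ : Mono P.σ

/-- The Hodge classes. `lift`: a Hodge class in `H^(2k)(X)(k)` with restriction zero on `V` comes from a Hodge class in `S`
(semisimplicity of polarizable pure Hodge structures); `weight`: a Hodge class in `S` comes from a Hodge class on `D` (weights and
semisimplicity); `algebraic`: the Hodge classes on `D` of degree `2k - 2` are algebraic (for `k = 2` by the theorem of
Lefschetz). -/
structure IsHodge : Prop where
  lift : ∀ f : I ⟶ X.even, f ≫ P.ρ = 0 → ∃ h : I ⟶ P.S, h ≫ P.δ = f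
  weight : ∀ f : I ⟶ P.S, ∃ h : I ⟶ D.even, h ≫ P.γ = f
  algebraic : ∀ f : I ⟶ D.even, ∃ y, D.cyc y = f

/-- The compatibility of the cycle classes and of the Abel-Jacobi maps. `support`: let `y` be a cycle on `D` with homologically
trivial Gysin image, and `β` the class of `y` in `B`. Then the image in `Ext¹(I, A)` of the Abel-Jacobi class of the Gysin image of
`y` is the pull-back by `β` of the extension `V.odd` of `B` by `A`. -/
structure IsCompatible (h : P.IsExact) : Prop where
  cyc_gysin : ∀ y, X.cyc (P.gysin y) = D.cyc y ≫ P.γ ≫ P.δ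
  cyc_restrict : ∀ x, V.cyc (P.restrict x) = X.cyc x ≫ P.ρ
  aj_gysin : ∀ y, D.cyc y = 0 → X.aj (P.gysin y) = push P.g (D.aj y)
  aj_restrict : ∀ x, X.cyc x = 0 → V.aj (P.restrict x) = push (P.p ≫ P.ι) (X.aj x)
  support : ∀ (y : D.CH) (β : I ⟶ P.B), X.cyc (P.gysin y) = 0 → β ≫ P.σ = D.cyc y ≫ P.γ →
    push P.p (X.aj (P.gysin y)) = (Ext.mk₀ β).comp h.short.extClass (zero_add 1)

end OpenPair

section

variable (ω : 𝓗 ⥤ ModuleCat.{0} ℚ)

/-- The linear map between the underlying vector spaces. -/
def val {H H' : 𝓗} (f : H ⟶ H') (x : ω.obj H) : ω.obj H' := (ω.map f).hom x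

/-- `ω` is the underlying vector space: it is faithful, and the Hom spaces are finite-dimensional. -/
structure IsRealisation : Prop where
  zero : ∀ {H H' : 𝓗} (x : ω.obj H), val ω (0 : H ⟶ H') x = 0
  faithful : ∀ {H H' : 𝓗} (f : H ⟶ H'), (∀ x, val ω f x = 0) → f = 0
  finite : ∀ H : 𝓗, Module.Finite ℚ (H ⟶ H)

/-- A bilinear form on the underlying vector space of `H`. -/
def Form (H : 𝓗) : Type := LinearMap.BilinForm ℚ (ω.obj H)

/-- The value of a form. -/
def Form.ev {ω : 𝓗 ⥤ ModuleCat.{0} ℚ} {H : 𝓗} (Q : Form ω H) (x y : ω.obj H) : ℚ :=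
  (show LinearMap.BilinForm ℚ (ω.obj H) from Q) x y

/-- The properties of a polarisation of a Hodge structure of odd weight: the form is alternating, and the restriction to the
image of any morphism of Hodge structures is non-degenerate. -/
structure Form.IsPolarisation {ω : 𝓗 ⥤ ModuleCat.{0} ℚ} {H : 𝓗} (Q : Form ω H) : Prop where
  alternating : ∀ x y, Q.ev x y = -Q.ev y x
  nondegenerate : ∀ (Z : 𝓗) (f : Z ⟶ H) (x : ω.obj Z), (∀ y, Q.ev (val ω f x) (val ω f y) = 0) → val ω f x = 0

/-- The data of polarisations of `X.odd` and `D.odd` and of a morphism `s` in the opposite direction of the Gysin map `g`, with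
a map `R` of the Chow groups. -/
structure Adjoint {I : 𝓗} (X D : Cycles I) where
  QX : Form ω X.odd
  QD : Form ω D.odd
  s : X.odd ⟶ D.odd
  R : X.CH →ₗ[ℚ] D.CH

/-- `s` is the adjoint of `g` for the polarisations, and it is induced by an algebraic correspondence, which acts on the Chow
groups by `R`. -/
structure Adjoint.IsAdjoint {ω : 𝓗 ⥤ ModuleCat.{0} ℚ} {I : 𝓗} {X D : Cycles I} (a : Adjoint ω X D) (g : D.odd ⟶ X.odd) :
    Prop where
  polX : a.QX.IsPolarisation
  polD : a.QD.IsPolarisation
  adjoint : ∀ u b, a.QD.ev (val ω a.s u) b = a.QX.ev u (val ω g b)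
  cyc_R : ∀ x, X.cyc x = 0 → D.cyc (value a.R x) = 0
  aj_R : ∀ x, X.cyc x = 0 → D.aj (value a.R x) = push a.s (X.aj x)

/-- `X` is a smooth compactification of `V`. -/
def IsCompactification {I : 𝓗} (V X : Cycles I) : Prop :=
  ∃ (D : Cycles I) (P : OpenPair V X D) (a : Adjoint ω X D) (h : P.IsExact),
    P.IsLocalisation ∧ P.IsHodge ∧ P.IsCompatible h ∧ a.IsAdjoint P.g

end

end Pool.Agent.T6.H33.QP
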