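import Pool.Agent.T6.H33.QP.Defs

/-!
# The Abel-Jacobi map of open varieties: the proof
-/

set_option autoImplicit false

open CategoryTheory CategoryTheory.Limits CategoryTheory.Abelian Polynomial

universe w v u

namespace Pool.Agent.T6.H33.QP

variable {𝓗 : Type u} [Category.{v} 𝓗] [Abelian 𝓗] [Linear ℚ 𝓗] [HasExt.{w} 𝓗]

section push

variable {I H H' H'' : 𝓗}

omit [Linear ℚ 𝓗] in
lemma push_comp (f : H ⟶ H') (g : H' ⟶ H'') (α : Ext I H 1) : push g (push f α) = push (f ≫ g) α := by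
  simp [push]

omit [Linear ℚ 𝓗] in
lemma push_add (f g : H ⟶ H') (α : Ext I H 1) : push (f + g) α = push f α + push g α := by
  simp [push, Ext.mk₀_add]

omit [Linear ℚ 𝓗] in
lemma push_zero (f : H ⟶ H') : push f (0 : Ext I H 1) = 0 := by
  simp [push]

lemma push_smul (c : ℚ) (f : H ⟶ H') (α : Ext I H 1) : push (c • f) α = c • push f α := by
  simp [push, Ext.mk₀_smul]

omit [Linear ℚ 𝓗] in
lemma push_sub (f : H ⟶ H') (α β : Ext I H 1) : push f (α - β) = push f α - push f β := by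
  rw [eq_sub_iff_add_eq]
  have h := Ext.add_comp (α - β) β (Ext.mk₀ f) (add_zero 1)
  rw [sub_add_cancel] at h
  exact h.symm

end push

section

variable {ω : 𝓗 ⥤ ModuleCat.{0} ℚ}

omit [Abelian 𝓗] [Linear ℚ 𝓗] [HasExt.{w} 𝓗] in
lemma val_comp {H H' H'' : 𝓗} (f : H ⟶ H') (g : H' ⟶ H'') (x : ω.obj H) :
    val ω (f ≫ g) x = val ω g (val ω f x) := by
  simp [val]

variable {I : 𝓗} {X D : Cycles I} {a : Adjoint ω X D} {g : D.odd ⟶ X.odd}

lemma ev_zero_left {H : 𝓗} (Q : Form ω H) (y : ω.obj H) : Q.ev 0 y = 0 := by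
  unfold Form.ev
  rw [map_zero, LinearMap.zero_apply]

lemma ev_zero_right {H : 𝓗} (Q : Form ω H) (x : ω.obj H) : Q.ev x 0 = 0 := by
  unfold Form.ev
  rw [map_zero]

variable (hω : IsRealisation ω) (ha : a.IsAdjoint g)

include hω ha

lemma inj₁ {Z : 𝓗} (f : Z ⟶ D.odd) (h : f ≫ g ≫ a.s = 0) : f ≫ g = 0 := by
  refine hω.faithful _ fun x => ha.polX.nondegenerate Z (f ≫ g) x fun y => ?_
  rw [val_comp (g := g) (x := y), ← ha.adjoint, ← val_comp, Category.assoc, h, hω.zero, ev_zero_left]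

lemma self_adjoint (x y : ω.obj D.odd) :
    a.QD.ev (val ω (g ≫ a.s) x) y = a.QD.ev x (val ω (g ≫ a.s) y) := by
  rw [val_comp, ha.adjoint, ha.polX.alternating, ← ha.adjoint, ← val_comp, ← ha.polD.alternating]

lemma inj₂ {Z : 𝓗} (f : Z ⟶ D.odd) (h : f ≫ (g ≫ a.s) ≫ (g ≫ a.s) = 0) : f ≫ g ≫ a.s = 0 := by
  refine hω.faithful _ fun x => ha.polD.nondegenerate Z (f ≫ g ≫ a.s) x fun y => ?_
  rw [val_comp (g := g ≫ a.s) (x := x), self_adjoint hω ha, ← val_comp, Category.assoc, h, hω.zero, ev_zero_right]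

lemma exists_poly : ∃ P : ℚ[X], (aeval (show End D.odd from g ≫ a.s) P : D.odd ⟶ D.odd) ≫ g = 0 ∧ P.coeff 0 ≠ 0 := by
  obtain ⟨φ, hφ⟩ : ∃ φ : End D.odd, φ = (show End D.odd from g ≫ a.s) := ⟨_, rfl⟩
  rw [← hφ]
  have h1 : ∃ n : ℕ, ∃ P : ℚ[X], P ≠ 0 ∧ (aeval φ P : D.odd ⟶ D.odd) ≫ g = 0 ∧ P.natDegree = n := by
    have hf : Module.Finite ℚ (End D.odd) := hω.finite D.odd
    have h2 : IsIntegral ℚ φ := IsIntegral.of_finite ℚ φ
    refine ⟨_, minpoly ℚ φ, minpoly.ne_zero h2, ?_, rfl⟩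
    rw [minpoly.aeval]
    exact zero_comp
  classical
  obtain ⟨P, hP0, hP, hd⟩ := Nat.find_spec h1
  refine ⟨P, hP, fun h0 => ?_⟩
  obtain ⟨R, rfl⟩ := Polynomial.X_dvd_iff.2 h0
  have hR0 : R ≠ 0 := fun h => hP0 (by rw [h, mul_zero])
  have hdeg : R.natDegree < Nat.find h1 := by
    rw [← hd, Polynomial.natDegree_X_mul hR0]
    exact Nat.lt_succ_self _
  refine Nat.find_min h1 hdeg ⟨R, hR0, ?_, rfl⟩
  rw [map_mul, aeval_X, End.mul_def] at hP
  have h3 : (aeval φ R : D.odd ⟶ D.odd) ≫ g ≫ a.s ≫ g = 0 := by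
    rw [hφ] at hP ⊢
    simpa only [Category.assoc] using hP
  have h4 : (aeval φ R : D.odd ⟶ D.odd) ≫ (g ≫ a.s) ≫ (g ≫ a.s) = 0 := by
    have h5 := congrArg (· ≫ a.s) h3
    simpa only [Category.assoc, Limits.zero_comp] using h5
  exact inj₁ hω ha _ (inj₂ hω ha _ h4)

/-- the quasi-inverse -/
lemma exists_quasi_inverse : ∃ P : ℚ[X],
    g ≫ a.s ≫ (aeval (show End D.odd from g ≫ a.s) P : D.odd ⟶ D.odd) ≫ g = g := by
  obtain ⟨P, hP, h0⟩ := exists_poly hω ha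
  obtain ⟨φ, hφ⟩ : ∃ φ : End D.odd, φ = (show End D.odd from g ≫ a.s) := ⟨_, rfl⟩
  rw [← hφ] at hP ⊢
  refine ⟨C (-(P.coeff 0)⁻¹) * P.divX, ?_⟩
  have h1 : aeval φ P = aeval φ P.divX * φ + algebraMap ℚ (End D.odd) (P.coeff 0) := by
    conv_lhs => rw [← Polynomial.divX_mul_X_add P]
    rw [map_add, map_mul, aeval_X, aeval_C]
  have h2 : (algebraMap ℚ (End D.odd) (P.coeff 0) : D.odd ⟶ D.odd) = P.coeff 0 • 𝟙 D.odd := by
    rw [Algebra.algebraMap_eq_smul_one]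
    rfl
  have h3 : (φ : D.odd ⟶ D.odd) ≫ (aeval φ P.divX : D.odd ⟶ D.odd) ≫ g + P.coeff 0 • g = 0 := by
    rw [h1] at hP
    have h4 : ((aeval φ P.divX * φ + algebraMap ℚ (End D.odd) (P.coeff 0) : End D.odd) : D.odd ⟶ D.odd) =
        φ ≫ (aeval φ P.divX : D.odd ⟶ D.odd) + P.coeff 0 • 𝟙 D.odd := by
      rw [← h2]
      rfl
    rw [h4, Preadditive.add_comp, Linear.smul_comp, Category.id_comp, Category.assoc] at hP
    exact hP
  have h5 : (aeval φ (C (-(P.coeff 0)⁻¹) * P.divX) : D.odd ⟶ D.odd) =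
      (-(P.coeff 0)⁻¹) • (aeval φ P.divX : D.odd ⟶ D.odd) := by
    rw [map_mul, aeval_C, Algebra.algebraMap_eq_smul_one, smul_mul_assoc, one_mul]
  have h6 : g ≫ a.s ≫ (aeval φ P.divX : D.odd ⟶ D.odd) ≫ g = -(P.coeff 0 • g) := by
    rw [eq_neg_iff_add_eq_zero]
    have h7 : ∀ k : D.odd ⟶ X.odd, (φ : D.odd ⟶ D.odd) ≫ k = g ≫ a.s ≫ k := fun k => by
      rw [hφ]
      exact Category.assoc _ _ _
    rw [h7] at h3
    exact h3
  rw [h5, Linear.smul_comp, Linear.comp_smul, Linear.comp_smul, h6, smul_neg, neg_smul, neg_neg, smul_smul,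
    inv_mul_cancel₀ h0, one_smul]

end

section

variable {ω : 𝓗 ⥤ ModuleCat.{0} ℚ} {I : 𝓗} {V X D : Cycles I} {P : OpenPair V X D} {a : Adjoint ω X D}
  {h : P.IsExact}

lemma R_poly (hc : P.IsCompatible h) (ha : a.IsAdjoint P.g) (Q : ℚ[X]) (x : X.CH) (hx : X.cyc x = 0) :
    ∃ y : D.CH, D.cyc y = 0 ∧
      D.aj y = push (a.s ≫ (aeval (show End D.odd from P.g ≫ a.s) Q : D.odd ⟶ D.odd)) (X.aj x) := by
  obtain ⟨φ, hφ⟩ : ∃ φ : End D.odd, φ = (show End D.odd from P.g ≫ a.s) := ⟨_, rfl⟩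
  rw [← hφ]
  have hcyc : ∀ y, D.cyc y = D.cl y := fun y => rfl
  have haj : ∀ y, D.aj y = D.AJ y := fun y => rfl
  induction Q using Polynomial.induction_on' with
  | add Q Q' hQ hQ' =>
    obtain ⟨y, h1, h2⟩ := hQ
    obtain ⟨y', h1', h2'⟩ := hQ'
    refine ⟨y + y', ?_, ?_⟩
    · rw [hcyc, map_add, ← hcyc, ← hcyc, h1, h1', add_zero]
    · have h3 : (aeval φ (Q + Q') : D.odd ⟶ D.odd) = (aeval φ Q : D.odd ⟶ D.odd) + (aeval φ Q' : D.odd ⟶ D.odd) := by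
        rw [map_add]
      rw [haj, map_add, ← haj, ← haj, h2, h2', h3, Preadditive.comp_add, push_add]
  | monomial n c =>
    have key : ∀ n : ℕ, ∃ y : D.CH, D.cyc y = 0 ∧ D.aj y = push (a.s ≫ (φ ^ n : End D.odd)) (X.aj x) := by
      intro n
      induction n with
      | zero =>
        refine ⟨value a.R x, ha.cyc_R x hx, ?_⟩
        rw [ha.aj_R x hx]
        congr 1
        exact (Category.comp_id _).symm
      | succ n ih =>
        obtain ⟨y, h1, h2⟩ := ih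
        have h3 : X.cyc (P.gysin y) = 0 := by rw [hc.cyc_gysin, h1, Limits.zero_comp]
        refine ⟨value a.R (P.gysin y), ha.cyc_R _ h3, ?_⟩
        rw [ha.aj_R _ h3, hc.aj_gysin y h1, h2, push_comp, push_comp]
        congr 1
        rw [pow_succ', End.mul_def, Category.assoc]
        have h4 : (φ : D.odd ⟶ D.odd) = P.g ≫ a.s := hφ
        exact congrArg (fun k : D.odd ⟶ D.odd => a.s ≫ ((φ ^ n : End D.odd) : D.odd ⟶ D.odd) ≫ k) h4.symm
    obtain ⟨y, h1, h2⟩ := key n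
    refine ⟨c • y, ?_, ?_⟩
    · rw [hcyc, map_smul, ← hcyc, h1, smul_zero]
    · have h3 : (aeval φ (monomial n c) : D.odd ⟶ D.odd) = c • ((φ ^ n : End D.odd) : D.odd ⟶ D.odd) := by
        rw [aeval_monomial, Algebra.algebraMap_eq_smul_one, smul_mul_assoc, one_mul]
      rw [haj, map_smul, ← haj, h2, h3, Linear.comp_smul, push_smul]

/-- **The main theorem.** -/
theorem main (hω : IsRealisation ω) (hc : P.IsCompatible h) (hl : P.IsLocalisation) (hh : P.IsHodge)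
    (ha : a.IsAdjoint P.g) (hX : X.Injective) : V.Injective := by
  intro v hv0 hv1
  have := h.epi_p
  have := h.mono_σ
  have hXc : ∀ x x', X.cyc (x - x') = X.cyc x - X.cyc x' := fun x x' => map_sub X.cl x x'
  have hXa : ∀ x x', X.aj (x - x') = X.aj x - X.aj x' := fun x x' => map_sub X.AJ x x'
  have hVr : ∀ x x', P.restrict (x - x') = P.restrict x - P.restrict x' := fun x x' => map_sub P.j x x'
  -- a lift, homologically trivial
  obtain ⟨x, rfl⟩ := hl.surj v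
  obtain ⟨f, hf⟩ := hh.lift (X.cyc x) (by rw [← hc.cyc_restrict, hv0])
  obtain ⟨f', hf'⟩ := hh.weight f
  obtain ⟨y, hy⟩ := hh.algebraic f'
  have hr : ∀ y, P.restrict (P.gysin y) = 0 := fun y => (hl.exact _).2 ⟨y, rfl⟩
  obtain ⟨x₁, hx₁⟩ : ∃ x₁, x₁ = x - P.gysin y := ⟨_, rfl⟩
  have h1 : X.cyc x₁ = 0 := by
    rw [hx₁, hXc, hc.cyc_gysin, hy, ← Category.assoc, hf', hf, sub_self]
  have h2 : P.restrict x₁ = P.restrict x := by rw [hx₁, hVr, hr, sub_zero]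
  rw [← h2] at hv1 ⊢
  -- the image in `Ext¹(I, A)`
  have h3 : push P.ι (push P.p (X.aj x₁)) = 0 := by
    rw [push_comp, ← hc.aj_restrict x₁ h1, hv1]
  obtain ⟨b, hb⟩ := Ext.covariant_sequence_exact₁ I h.short (push P.p (X.aj x₁)) h3 (zero_add 1)
  obtain ⟨β, rfl⟩ : ∃ β : I ⟶ P.B, Ext.mk₀ β = b := ⟨Ext.addEquiv₀ b, Ext.addEquiv₀.symm_apply_apply b⟩
  obtain ⟨f₂, hf₂⟩ := hh.weight (β ≫ P.σ)
  obtain ⟨y₂, hy₂⟩ := hh.algebraic f₂
  have h4 : X.cyc (P.gysin y₂) = 0 := by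
    rw [hc.cyc_gysin, hy₂, ← Category.assoc, hf₂, Category.assoc, h.σ_δ, Limits.comp_zero]
  have h5 := hc.support y₂ β h4 (by rw [hy₂, hf₂])
  obtain ⟨x₂, hx₂⟩ : ∃ x₂, x₂ = x₁ - P.gysin y₂ := ⟨_, rfl⟩
  have h6 : X.cyc x₂ = 0 := by rw [hx₂, hXc, h1, h4, sub_self]
  have h7 : P.restrict x₂ = P.restrict x₁ := by rw [hx₂, hVr, hr, sub_zero]
  have h8 : push P.p (X.aj x₂) = 0 := by
    rw [hx₂, hXa, push_sub, h5, hb, sub_self]
  rw [← h7]
  -- the Abel-Jacobi class comes from `D`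
  have hS : (ShortComplex.mk (kernel.ι P.p) P.p (kernel.condition P.p)).ShortExact :=
    { exact := ShortComplex.exact_kernel P.p, mono_f := inferInstance, epi_g := h.epi_p }
  obtain ⟨η, hη⟩ := Ext.covariant_sequence_exact₂ I hS (X.aj x₂) h8
  have hη' : push (kernel.ι P.p) η = X.aj x₂ := hη
  obtain ⟨Q, hQ⟩ := exists_quasi_inverse hω ha
  have hq : Epi (kernel.lift P.p P.g h.g_p) := (ShortComplex.exact_iff_epi_kernel_lift _).1 h.exact_g
  obtain ⟨r, hr'⟩ : ∃ r : X.odd ⟶ D.odd, r = a.s ≫ (aeval (show End D.odd from P.g ≫ a.s) Q : D.odd ⟶ D.odd) :=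
    ⟨_, rfl⟩
  have h9 : P.g ≫ r ≫ P.g = P.g := by
    rw [hr', Category.assoc]
    exact hQ
  have h10 : kernel.ι P.p ≫ r ≫ P.g = kernel.ι P.p := by
    rw [← cancel_epi (kernel.lift P.p P.g h.g_p), ← Category.assoc, kernel.lift_ι, h9]
  have h11 : push (r ≫ P.g) (X.aj x₂) = X.aj x₂ := by
    rw [← hη', push_comp, h10]
  obtain ⟨y₃, h12, h13⟩ := R_poly hc ha Q x₂ h6
  rw [← hr'] at h13
  have h14 : X.aj (P.gysin y₃) = X.aj x₂ := by
    rw [hc.aj_gysin y₃ h12, h13, push_comp, h11]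
  have h15 : X.cyc (P.gysin y₃) = 0 := by rw [hc.cyc_gysin, h12, Limits.zero_comp]
  have h16 : x₂ - P.gysin y₃ = 0 := hX _ (by rw [hXc, h6, h15, sub_self]) (by rw [hXa, h14, sub_self])
  rw [sub_eq_zero.1 h16, hr]

end

end Pool.Agent.T6.H33.QP
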